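import Mathlib

/-!
# Basic notions for `MP_c5d73d_lc`: the Stone-Cech remainder of the integers, P-sets,
Martin's axiom, and the dictionary between nowhere dense closed P-sets and tall P-ideals.
-/

open Set Filter Topology Cardinal

namespace Pool.Agent.Lib.MP_c5d73d_lc

/-- The Stone-Cech remainder of the integers: the space of nonprincipal ultrafilters on `ℕ`. -/
def OmegaStar : Type := {U : Ultrafilter ℕ // ∀ n : ℕ, ({n} : Set ℕ) ∉ U}

instance : TopologicalSpace OmegaStar :=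
  inferInstanceAs (TopologicalSpace {U : Ultrafilter ℕ // ∀ n : ℕ, ({n} : Set ℕ) ∉ U})

/-- `F` is a P-set: every countable intersection of open sets containing `F` has `F` in
its interior. -/
def IsPSet {X : Type} [TopologicalSpace X] (F : Set X) : Prop :=
  ∀ G : ℕ → Set X, (∀ n, IsOpen (G n) ∧ F ⊆ G n) → F ⊆ interior (⋂ n, G n)

/-- Martin's axiom: for every ccc poset and every family of fewer than continuum many dense
sets there is a filter meeting them all. -/
def MartinAxiom : Prop :=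
  ∀ (P : Type) [PartialOrder P] [Nonempty P],
    (∀ A : Set P, (∀ a ∈ A, ∀ b ∈ A, a ≠ b → ¬ ∃ c, c ≤ a ∧ c ≤ b) → A.Countable) →
    ∀ D : Set (Set P), #D < 𝔠 → (∀ E ∈ D, ∀ p : P, ∃ q ∈ E, q ≤ p) →
      ∃ G : Set P, G.Nonempty ∧ (∀ p ∈ G, ∀ q, p ≤ q → q ∈ G) ∧
        (∀ p ∈ G, ∀ q ∈ G, ∃ r ∈ G, r ≤ p ∧ r ≤ q) ∧ ∀ E ∈ D, (G ∩ E).Nonempty

/-- The trace of the closure of a set of integers on the remainder. -/
def star (A : Set ℕ) : Set OmegaStar := {U | A ∈ U.1}

lemma mem_star {A : Set ℕ} {U : OmegaStar} : U ∈ star A ↔ A ∈ U.1 := Iff.rfl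

lemma isOpen_star (A : Set ℕ) : IsOpen (star A) :=
  (ultrafilter_isOpen_basic A).preimage continuous_subtype_val

lemma star_compl (A : Set ℕ) : star Aᶜ = (star A)ᶜ := by
  ext U
  exact Ultrafilter.compl_mem_iff_notMem

lemma isClosed_star (A : Set ℕ) : IsClosed (star A) := by
  rw [← isOpen_compl_iff, ← star_compl]
  exact isOpen_star _

lemma OmegaStar.cofinite_le (U : OmegaStar) : (U.1 : Filter ℕ) ≤ cofinite := by
  intro s hs
  have hf : (sᶜ).Finite := hs
  have : ∀ t : Set ℕ, t.Finite → tᶜ ∈ (U.1 : Filter ℕ) := by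
    intro t ht
    induction t, ht using Set.Finite.induction_on with
    | empty => simp
    | insert _ _ ih =>
      rw [Set.insert_eq, Set.compl_union]
      exact inter_mem (Ultrafilter.compl_mem_iff_notMem.2 (U.2 _)) ih
  simpa using this _ hf

lemma OmegaStar.infinite_of_mem (U : OmegaStar) {A : Set ℕ} (hA : A ∈ U.1) : A.Infinite := by
  intro hf
  have h1 : Aᶜ ∈ (U.1 : Filter ℕ) := U.cofinite_le (by simpa using hf)
  exact Ultrafilter.compl_mem_iff_notMem.1 h1 hA

lemma OmegaStar.mem_of_diff_finite (U : OmegaStar) {A B : Set ℕ} (hA : A ∈ U.1)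
    (h : (A \ B).Finite) : B ∈ U.1 := by
  have h1 : (A \ B)ᶜ ∈ (U.1 : Filter ℕ) := U.cofinite_le (by simpa using h)
  refine mem_of_superset (inter_mem hA h1) ?_
  rintro x ⟨hx, hx'⟩
  by_contra hB
  exact hx' ⟨hx, hB⟩

lemma exists_mem_star {A : Set ℕ} (hA : A.Infinite) : ∃ U : OmegaStar, A ∈ U.1 := by
  have : NeBot (cofinite ⊓ 𝓟 A) := by
    rw [cofinite_inf_principal_neBot_iff]
    exact hA
  obtain ⟨U, hU⟩ := Ultrafilter.exists_le (cofinite ⊓ 𝓟 A)
  refine ⟨⟨U, fun n hn => ?_⟩, hU.trans inf_le_right (mem_principal_self A)⟩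
  have h1 : ({n} : Set ℕ)ᶜ ∈ (U : Filter ℕ) := hU.trans inf_le_left (by simp)
  exact Ultrafilter.compl_mem_iff_notMem.1 h1 hn

/-- An open neighbourhood of a point contains a basic clopen neighbourhood. -/
lemma exists_star_subset {U : OmegaStar} {V : Set OmegaStar} (hV : V ∈ 𝓝 U) :
    ∃ A ∈ U.1, star A ⊆ V := by
  have h0 : 𝓝 U = comap (Subtype.val) (𝓝 U.1) := nhds_induced _ _
  have h1 : V ∈ comap (Subtype.val) (𝓝 U.1) := h0 ▸ hV
  obtain ⟨W, hW, hWV⟩ := h1
  obtain ⟨_, ⟨A, rfl⟩, hA, hAW⟩ := (ultrafilterBasis_is_basis (α := ℕ)).mem_nhds_iff.1 hW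
  exact ⟨A, hA, fun x hx => hWV (hAW hx)⟩

lemma star_mem_nhds {U : OmegaStar} {A : Set ℕ} (h : A ∈ U.1) : star A ∈ 𝓝 U :=
  (isOpen_star A).mem_nhds h

instance : T2Space OmegaStar :=
  inferInstanceAs (T2Space {U : Ultrafilter ℕ // ∀ n : ℕ, ({n} : Set ℕ) ∉ U})

instance : CompactSpace OmegaStar := by
  have h : IsClosed {U : Ultrafilter ℕ | ∀ n : ℕ, ({n} : Set ℕ) ∉ U} := by
    have : {U : Ultrafilter ℕ | ∀ n : ℕ, ({n} : Set ℕ) ∉ U} =
        ⋂ n : ℕ, {U : Ultrafilter ℕ | ({n} : Set ℕ)ᶜ ∈ U} := by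
      ext U
      simp [Ultrafilter.compl_mem_iff_notMem]
    rw [this]
    exact isClosed_iInter fun n => ultrafilter_isClosed_basic _
  exact isCompact_iff_compactSpace.1 h.isCompact

/-- The closed set attached to a family of sets of integers. -/
def avoid (J : Set (Set ℕ)) : Set OmegaStar := {U | ∀ A ∈ J, A ∉ U.1}

lemma avoid_eq (J : Set (Set ℕ)) : avoid J = ⋂ A ∈ J, (star A)ᶜ := by
  ext U
  simp [avoid, star]

lemma isClosed_avoid (J : Set (Set ℕ)) : IsClosed (avoid J) := by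
  rw [avoid_eq]
  exact isClosed_biInter fun A _ => by
    rw [← star_compl]; exact isClosed_star _

/-- Tall families give nowhere dense closed sets. -/
lemma isNowhereDense_avoid {J : Set (Set ℕ)}
    (hJ : ∀ X : Set ℕ, X.Infinite → ∃ A ∈ J, A.Infinite ∧ A ⊆ X) :
    IsNowhereDense (avoid J) := by
  rw [IsNowhereDense, (isClosed_avoid J).closure_eq, Set.eq_empty_iff_forall_notMem]
  intro U hU
  obtain ⟨X, hX, hXF⟩ := exists_star_subset (mem_interior_iff_mem_nhds.1 hU)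
  obtain ⟨A, hAJ, hA, hAX⟩ := hJ X (U.infinite_of_mem hX)
  obtain ⟨V, hV⟩ := exists_mem_star hA
  exact hXF (show V ∈ star X from mem_of_superset hV hAX) A hAJ hV

/-- P-ideals give closed P-sets. -/
lemma isPSet_avoid {J : Set (Set ℕ)} (hne : J.Nonempty)
    (hunion : ∀ A ∈ J, ∀ B ∈ J, ∃ C ∈ J, A ∪ B ⊆ C)
    (hP : ∀ f : ℕ → Set ℕ, (∀ n, f n ∈ J) → ∃ A ∈ J, ∀ n, (f n \ A).Finite) :
    IsPSet (avoid J) := by
  intro G hG
  have h1 : ∀ n, ∃ A ∈ J, (star A)ᶜ ⊆ G n := by
    intro n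
    have hc : IsCompact ((G n)ᶜ) := (hG n).1.isClosed_compl.isCompact
    have hcov : (G n)ᶜ ⊆ ⋃ A : J, star A.1 := by
      intro U hU
      by_contra hcon
      apply hU
      apply (hG n).2
      intro A hA hAU
      exact hcon (mem_iUnion.2 ⟨⟨A, hA⟩, hAU⟩)
    obtain ⟨t, ht⟩ := hc.elim_finite_subcover (fun A : J => star A.1)
      (fun A => isOpen_star A.1) hcov
    have h2 : ∀ t : Finset J, ∃ C ∈ J, ∀ A ∈ t, A.1 ⊆ C := by
      classical
      intro t
      induction t using Finset.induction_on with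
      | empty => exact ⟨hne.some, hne.some_mem, by simp⟩
      | insert a s _ ih =>
        obtain ⟨C, hC, hs⟩ := ih
        obtain ⟨E, hE, hE2⟩ := hunion a.1 a.2 C hC
        refine ⟨E, hE, fun A hA => ?_⟩
        rcases Finset.mem_insert.1 hA with rfl | hA
        · exact subset_union_left.trans hE2
        · exact (hs A hA).trans (subset_union_right.trans hE2)
    obtain ⟨C, hC, hCt⟩ := h2 t
    refine ⟨C, hC, fun U hU => ?_⟩
    by_contra hUG
    obtain ⟨A, hA, hAU⟩ := mem_iUnion₂.1 (ht hUG)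
    exact hU (mem_of_superset hAU (hCt A hA))
  choose f hfJ hf using h1
  obtain ⟨A, hAJ, hA⟩ := hP f hfJ
  have hsub : (star A)ᶜ ⊆ ⋂ n, G n := by
    intro U hU
    refine mem_iInter.2 fun n => hf n fun hfn => hU ?_
    exact U.mem_of_diff_finite hfn (hA n)
  have hopen : IsOpen ((star A)ᶜ) := by
    rw [← star_compl]; exact isOpen_star _
  exact fun U hU => interior_mono hsub (by rw [hopen.interior_eq]; exact hU A hAJ)

end Pool.Agent.Lib.MP_c5d73d_lc
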