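import Pool.Agent.Lib.MP_c5d73d_lc.PC

/-!
# Under Martin's axiom, intersections of closures of point-countable families of open
F-sigma sets are contained in nowhere dense closed P-sets
-/

open Set Filter Topology Cardinal

namespace Pool.Agent.Lib.MP_c5d73d_lc

theorem exists_cover (hMA : MartinAxiom) {κ : Cardinal.{0}} (hκ : κ.IsRegular)
    (hκ0 : ℵ₀ < κ) {ι : Type} (hι0 : κ ≤ #ι) (hι : #ι < 𝔠) (P : ι → ℕ → Set ℕ)
    (hpc : ∀ V : OmegaStar, #{i | ∃ n, V ∈ star (P i n)} < κ) :
    ∃ F : Set OmegaStar, IsClosed F ∧ IsNowhereDense F ∧ IsPSet F ∧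
      (⋂ i, closure (⋃ n, star (P i n))) ⊆ F := by
  classical
  let J : Set (Set ℕ) := {A | #{i | ∃ n, (A ∩ P i n).Infinite} < κ}
  refine ⟨avoid J, isClosed_avoid J, isNowhereDense_avoid ?_, isPSet_avoid ⟨∅, ?_⟩ ?_ ?_, ?_⟩
  · -- tallness
    intro X hX
    obtain ⟨W, hW⟩ := exists_mem_star hX
    let A : (ι × ℕ) ⊕ Unit → Set ℕ := fun c => match c with
      | Sum.inl q => if P q.1 q.2 ∈ W.1 then P q.1 q.2 else (P q.1 q.2)ᶜ
      | Sum.inr _ => X
    have hAW : ∀ c, A c ∈ W.1 := by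
      rintro (q | _)
      · by_cases h : P q.1 q.2 ∈ W.1
        · simp only [A, h, if_true]
        · simp only [A, h, if_false]
          exact Ultrafilter.compl_mem_iff_notMem.2 h
      · exact hW
    have hcard : #((ι × ℕ) ⊕ Unit) < 𝔠 := by
      rw [mk_sum, lift_id, lift_id]
      refine add_lt_of_lt aleph0_le_continuum ?_ (by simpa using one_lt_aleph0.trans aleph0_lt_continuum)
      rw [mk_prod, lift_id, lift_id]
      exact mul_lt_of_lt aleph0_le_continuum hι (by simpa using aleph0_lt_continuum)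
    obtain ⟨B, hB, hBA⟩ := exists_pseudo hMA hcard A (by
      intro s
      apply W.infinite_of_mem
      exact (biInter_finset_mem s).2 fun c _ => hAW c)
    have hBX : (B ∩ X).Infinite := by
      intro hf
      refine hB ((hf.union (hBA (Sum.inr ()))).subset ?_)
      intro x hx
      by_cases h : x ∈ X
      · exact Or.inl ⟨hx, h⟩
      · exact Or.inr ⟨hx, h⟩
    refine ⟨B ∩ X, ?_, hBX, inter_subset_right⟩
    obtain ⟨V, hV⟩ := exists_mem_star hBX
    refine (mk_le_mk_of_subset ?_).trans_lt (hpc V)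
    rintro i ⟨n, hn⟩
    refine ⟨n, ?_⟩
    have h1 := hBA (Sum.inl (i, n))
    by_cases h : P i n ∈ W.1
    · have h2 : A (Sum.inl (i, n)) = P i n := by simp only [A, h, if_true]
      rw [h2] at h1
      exact V.mem_of_diff_finite (mem_of_superset hV inter_subset_left) h1
    · have h2 : A (Sum.inl (i, n)) = (P i n)ᶜ := by simp only [A, h, if_false]
      rw [h2] at h1
      exfalso
      refine hn (h1.subset ?_)
      rintro x ⟨⟨hxB, _⟩, hxP⟩
      exact ⟨hxB, fun hx => hx hxP⟩
  · -- the empty set belongs to J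
    have h0 : {i : ι | ∃ n, ((∅ : Set ℕ) ∩ P i n).Infinite} = ∅ := by
      ext i
      simp
    change #{i | ∃ n, ((∅ : Set ℕ) ∩ P i n).Infinite} < κ
    rw [h0]
    simpa using hκ.pos
  · -- finite unions
    intro A hA B hB
    refine ⟨A ∪ B, ?_, subset_rfl⟩
    refine (mk_le_mk_of_subset (t := {i | ∃ n, (A ∩ P i n).Infinite} ∪
      {i | ∃ n, (B ∩ P i n).Infinite}) ?_).trans_lt
      ((mk_union_le _ _).trans_lt (add_lt_of_lt hκ.aleph0_le hA hB))
    rintro i ⟨n, hn⟩
    rw [union_inter_distrib_right] at hn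
    rcases Set.infinite_union.1 hn with h | h
    · exact Or.inl ⟨n, h⟩
    · exact Or.inr ⟨n, h⟩
  · -- P-ideal
    intro f hf
    let Z : Set ι := ⋃ k, {i | ∃ n, (f k ∩ P i n).Infinite}
    have hZ : #Z < κ := (card_iUnion_lt_iff_forall_of_isRegular hκ (by simpa using hκ0)).2 hf
    let A' : ℕ → Set ℕ := fun k => {x | x ∈ f k ∧ ∀ j < k, x ∉ f j}
    have hfin : ∀ q : {i // i ∉ Z} × ℕ, ∀ k, (f k ∩ P q.1.1 q.2).Finite := by
      intro q k
      by_contra h
      exact q.1.2 (mem_iUnion.2 ⟨k, q.2, h⟩)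
    have hbd : ∀ q : {i // i ∉ Z} × ℕ, ∀ k, ∃ M : ℕ, ∀ x ∈ f k ∩ P q.1.1 q.2, x < M := by
      intro q k
      obtain ⟨M, hM⟩ := (hfin q k).bddAbove
      exact ⟨M + 1, fun x hx => Nat.lt_succ_of_le (hM hx)⟩
    choose h hh using hbd
    have hcard : #({i // i ∉ Z} × ℕ) < 𝔠 := by
      rw [mk_prod, lift_id, lift_id]
      exact mul_lt_of_lt aleph0_le_continuum ((mk_subtype_le _).trans_lt hι)
        (by simpa using aleph0_lt_continuum)
    obtain ⟨g, hg⟩ := exists_dominating hMA hcard h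
    refine ⟨{x | ∃ k, x ∈ A' k ∧ g k ≤ x}, ?_, ?_⟩
    · refine (mk_le_mk_of_subset ?_).trans_lt hZ
      rintro i ⟨n, hn⟩
      by_contra hi
      refine hn ?_
      obtain ⟨N, hN⟩ := eventually_atTop.1 (hg (⟨i, hi⟩, n))
      refine Set.Finite.subset ((Set.finite_Iio N).biUnion (t := fun k => f k ∩ P i n)
        fun k _ => hfin (⟨i, hi⟩, n) k) ?_
      rintro x ⟨⟨k, hk, hgk⟩, hxP⟩
      refine mem_iUnion₂.2 ⟨k, ?_, hk.1, hxP⟩
      by_contra hkN
      have h1 := hN k (not_lt.1 hkN)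
      have h2 := hh (⟨i, hi⟩, n) k x ⟨hk.1, hxP⟩
      omega
    · intro k
      refine Set.Finite.subset (s := ⋃ j ∈ Iic k, Iio (g j))
        ((Set.finite_Iic k).biUnion fun j _ => Set.finite_Iio _) ?_
      rintro x ⟨hxk, hxA⟩
      have hex : ∃ j, x ∈ f j := ⟨k, hxk⟩
      refine mem_iUnion₂.2 ⟨Nat.find hex, Nat.find_min' hex hxk, ?_⟩
      by_contra hlt
      exact hxA ⟨Nat.find hex, ⟨Nat.find_spec hex, fun j hj => Nat.find_min hex hj⟩, not_lt.1 hlt⟩
  · -- the intersection of the closures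
    intro U hU A hA hAU
    have hne : ∃ i, i ∉ {i | ∃ n, (A ∩ P i n).Infinite} := by
      by_contra hcon
      push Not at hcon
      have huniv : {i | ∃ n, (A ∩ P i n).Infinite} = Set.univ := eq_univ_of_forall hcon
      have h1 : #{i | ∃ n, (A ∩ P i n).Infinite} < κ := hA
      rw [huniv, mk_univ] at h1
      exact not_lt.2 hι0 h1
    obtain ⟨i, hi⟩ := hne
    obtain ⟨V, hVA, hVO⟩ := mem_closure_iff_nhds.1 (mem_iInter.1 hU i) _ (star_mem_nhds hAU)
    obtain ⟨n, hn⟩ := mem_iUnion.1 hVO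
    exact hi ⟨n, V.infinite_of_mem (inter_mem hVA hn)⟩

/-- An open F-sigma set of the remainder is a countable union of basic clopen sets. -/
lemma exists_eq_iUnion_star {O : Set OmegaStar} (hO : IsOpen O) (C : ℕ → Set OmegaStar)
    (hC : ∀ n, IsClosed (C n)) (hOC : O = ⋃ n, C n) :
    ∃ P : ℕ → Set ℕ, O = ⋃ n, star (P n) := by
  classical
  have h1 : ∀ n, ∃ A : Set ℕ, C n ⊆ star A ∧ star A ⊆ O := by
    intro n
    have hc : IsCompact (C n) := (hC n).isCompact
    have hsub : C n ⊆ O := by rw [hOC]; exact subset_iUnion C n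
    obtain ⟨t, ht⟩ := hc.elim_finite_subcover (fun A : {A : Set ℕ // star A ⊆ O} => star A.1)
      (fun A => isOpen_star A.1) (by
        intro U hU
        obtain ⟨A, hA, hAO⟩ := exists_star_subset (hO.mem_nhds (hsub hU))
        exact mem_iUnion.2 ⟨⟨A, hAO⟩, hA⟩)
    refine ⟨⋃ A ∈ t, A.1, ?_, ?_⟩
    · intro U hU
      obtain ⟨A, hA, hAU⟩ := mem_iUnion₂.1 (ht hU)
      exact mem_of_superset (show A.1 ∈ U.1 from hAU) (subset_biUnion_of_mem (u := fun A => A.1) hA)
    · intro U hU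
      have hU' : (⋃ A ∈ (t : Set {A : Set ℕ // star A ⊆ O}), A.1) ∈ U.1 := hU
      obtain ⟨A, hA, hAU⟩ := (Ultrafilter.finite_biUnion_mem_iff t.finite_toSet).1 hU'
      exact A.2 hAU
  choose P hP1 hP2 using h1
  refine ⟨P, Set.Subset.antisymm ?_ (iUnion_subset hP2)⟩
  rw [hOC]
  exact iUnion_mono hP1

theorem exists_cover' (hMA : MartinAxiom) {κ : Cardinal.{0}} (hκ : κ.IsRegular)
    (hκ0 : ℵ₀ < κ) {ι : Type} (hι0 : κ ≤ #ι) (hι : #ι < 𝔠) (O : ι → Set OmegaStar)
    (hO : ∀ i, IsOpen (O i) ∧ ∃ C : ℕ → Set OmegaStar, (∀ n, IsClosed (C n)) ∧ O i = ⋃ n, C n)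
    (hpc : ∀ V : OmegaStar, #{i | V ∈ O i} < κ) :
    ∃ F : Set OmegaStar, IsClosed F ∧ IsNowhereDense F ∧ IsPSet F ∧
      (⋂ i, closure (O i)) ⊆ F := by
  have h1 : ∀ i, ∃ P : ℕ → Set ℕ, O i = ⋃ n, star (P n) := by
    intro i
    obtain ⟨C, hC, hOC⟩ := (hO i).2
    exact exists_eq_iUnion_star (hO i).1 C hC hOC
  choose P hP using h1
  obtain ⟨F, h1, h2, h3, h4⟩ := exists_cover hMA hκ hκ0 hι0 hι P (by
    intro V
    refine (mk_le_mk_of_subset ?_).trans_lt (hpc V)
    rintro i ⟨n, hn⟩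
    change V ∈ O i
    rw [hP i]
    exact mem_iUnion.2 ⟨n, hn⟩)
  refine ⟨F, h1, h2, h3, ?_⟩
  convert h4 using 3
  rename_i i
  exact congrArg closure (hP i)

/-- `x` is a `κ`-OK point (Kunen): for every sequence of neighbourhoods `V n` of `x` there
are `κ` neighbourhoods of `x` such that the intersection of any `n ≥ 1` of them with
distinct indices is contained in `V n`. -/
def IsOK {X : Type} [TopologicalSpace X] (κ : Cardinal.{0}) (x : X) : Prop :=
  ∀ V : ℕ → Set X, (∀ n, V n ∈ 𝓝 x) → ∃ W : κ.out → Set X, (∀ a, W a ∈ 𝓝 x) ∧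
    ∀ s : Finset κ.out, s.Nonempty → (⋂ a ∈ s, W a) ⊆ V s.card

theorem exists_cover_of_isOK (hMA : MartinAxiom) (hCH : (ℵ₁ : Cardinal.{0}) < 𝔠)
    {U : OmegaStar} (hU : IsOK ℵ₁ U) :
    ∃ F : Set OmegaStar, U ∈ F ∧ IsClosed F ∧ IsNowhereDense F ∧ IsPSet F := by
  classical
  by_cases hP : ∀ G : ℕ → Set OmegaStar, (∀ n, G n ∈ 𝓝 U) → (⋂ n, G n) ∈ 𝓝 U
  · -- a P-point
    refine ⟨{U}, rfl, isClosed_singleton, ?_, ?_⟩
    · rw [IsNowhereDense, isClosed_singleton.closure_eq, Set.eq_empty_iff_forall_notMem]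
      intro V hV
      obtain ⟨X, hX, hXF⟩ := exists_star_subset (mem_interior_iff_mem_nhds.1 hV)
      -- split X into two infinite pieces
      have hXi := V.infinite_of_mem hX
      obtain ⟨e⟩ : Nonempty (ℕ ≃ X) := by
        have := hXi.to_subtype
        exact ⟨(nonempty_denumerable X).some.eqv.symm⟩
      let Y : Set ℕ := range (fun n => (e (2 * n) : ℕ))
      let Z : Set ℕ := range (fun n => (e (2 * n + 1) : ℕ))
      have hY : Y.Infinite := Set.infinite_range_of_injective (by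
        intro a b h
        have := e.injective (Subtype.ext h)
        omega)
      have hZ : Z.Infinite := Set.infinite_range_of_injective (by
        intro a b h
        have := e.injective (Subtype.ext h)
        omega)
      have hdisj : Disjoint Y Z := by
        rw [Set.disjoint_left]
        rintro _ ⟨a, rfl⟩ ⟨b, hb⟩
        have := e.injective (Subtype.ext hb)
        omega
      obtain ⟨V1, hV1⟩ := exists_mem_star hY
      obtain ⟨V2, hV2⟩ := exists_mem_star hZ
      have hYX : Y ⊆ X := by rintro _ ⟨a, rfl⟩; exact (e _).2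
      have hZX : Z ⊆ X := by rintro _ ⟨a, rfl⟩; exact (e _).2
      have e1 : V1 = U := hXF (show V1 ∈ star X from mem_of_superset hV1 hYX)
      have e2 : V2 = U := hXF (show V2 ∈ star X from mem_of_superset hV2 hZX)
      rw [e1] at hV1
      rw [e2] at hV2
      have := inter_mem hV1 hV2
      rw [disjoint_iff_inter_eq_empty.1 hdisj] at this
      exact (U.infinite_of_mem this) Set.finite_empty
    · intro G hG
      have : (⋂ n, G n) ∈ 𝓝 U := hP G fun n => (hG n).1.mem_nhds ((hG n).2 rfl)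
      rintro V rfl
      exact mem_interior_iff_mem_nhds.2 this
  · -- not a P-point
    push Not at hP
    obtain ⟨G, hG, hGU⟩ := hP
    choose B hBU hBG using fun n => exists_star_subset (hG n)
    -- decreasing version
    let C : ℕ → Set ℕ := fun n => ⋂ k ∈ Finset.range (n + 1), B k
    have hCU : ∀ n, C n ∈ U.1 := fun n => (biInter_finset_mem _).2 fun k _ => hBU k
    have hCB : ∀ n, C n ⊆ B n := fun n =>
      biInter_subset_of_mem (by simp)
    have hCanti : ∀ m n, m ≤ n → C n ⊆ C m := by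
      intro m n hmn x hx
      refine mem_iInter₂.2 fun k hk => mem_iInter₂.1 hx k ?_
      rw [Finset.mem_range] at hk ⊢
      omega
    obtain ⟨W, hWU, hW⟩ := hU (fun n => star (C n)) fun n => star_mem_nhds (hCU n)
    choose D hDU hDW using fun a => exists_star_subset (hWU a)
    obtain ⟨F, hF1, hF2, hF3, hF4⟩ := exists_cover hMA isRegular_aleph_one
      aleph0_lt_aleph_one (ι := (ℵ₁ : Cardinal.{0}).out)
      (by rw [mk_out]) (by rw [mk_out]; exact hCH)
      (fun a n => D a \ C n) (by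
        intro V
        refine lt_trans (Set.Finite.lt_aleph0 ?_) aleph0_lt_aleph_one
        by_contra hinf
        obtain ⟨a0, n0, ha0⟩ : ∃ a n, V ∈ star (D a \ C n) := by
          obtain ⟨a, ha⟩ := Set.Infinite.nonempty hinf
          exact ⟨a, ha⟩
        -- V lies in star (C n) for all n ≥ 1
        have hVC : V ∈ star (C (n0 + 1)) := by
          obtain ⟨t, hts, htc⟩ := Set.Infinite.exists_subset_card_eq hinf (n0 + 1)
          have htne : t.Nonempty := Finset.card_pos.1 (by omega)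
          have := hW t htne
          rw [htc] at this
          refine this (mem_iInter₂.2 fun a ha => hDW a ?_)
          obtain ⟨n, hn⟩ := hts ha
          exact mem_of_superset (show D a \ C n ∈ V.1 from hn) sdiff_subset
        have h1 : C n0 ∈ V.1 := mem_of_superset hVC (hCanti n0 (n0 + 1) (by omega))
        have h2 : D a0 \ C n0 ∈ V.1 := ha0
        have := inter_mem h1 h2
        refine (V.infinite_of_mem this) ?_
        exact Set.finite_empty.subset fun x hx => hx.2.2 hx.1)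
    refine ⟨F, hF4 (mem_iInter.2 fun a => ?_), hF1, hF2, hF3⟩
    rw [mem_closure_iff_nhds]
    intro T hT
    obtain ⟨E, hEU, hET⟩ := exists_star_subset hT
    by_contra hemp
    apply hGU
    have h1 : star (E ∩ D a) ⊆ ⋂ n, G n := by
      intro V hV
      refine mem_iInter.2 fun n => hBG n (mem_of_superset ?_ (hCB n))
      by_contra hVC
      apply hemp
      have h2 : E ∈ V.1 := mem_of_superset hV inter_subset_left
      have h3 : D a ∈ V.1 := mem_of_superset hV inter_subset_right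
      exact ⟨V, hET h2, mem_iUnion.2 ⟨n, inter_mem h3 (Ultrafilter.compl_mem_iff_notMem.2 hVC)⟩⟩
    exact mem_of_superset (star_mem_nhds (inter_mem hEU (hDU a))) h1

end Pool.Agent.Lib.MP_c5d73d_lc
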