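import Pool.Agent.Lib.MP_c5d73d_lc.Basic

/-!
# Consequences of Martin's axiom: pseudo-intersections and domination
-/

open Set Filter Topology Cardinal

namespace Pool.Agent.Lib.MP_c5d73d_lc

/-- The Mathias poset attached to a family of sets. -/
@[ext] structure MPos {ι : Type} (A : ι → Set ℕ) : Type where
  /-- the finite stem -/
  s : Finset ℕ
  /-- the finite set of promises -/
  F : Finset ι

instance {ι : Type} (A : ι → Set ℕ) : PartialOrder (MPos A) where
  le p q := q.s ⊆ p.s ∧ q.F ⊆ p.F ∧ ∀ x ∈ p.s, x ∉ q.s → ∀ i ∈ q.F, x ∈ A i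
  le_refl p := ⟨subset_rfl, subset_rfl, fun x hx hx' => absurd hx hx'⟩
  le_trans p q r h1 h2 := by
    refine ⟨h2.1.trans h1.1, h2.2.1.trans h1.2.1, fun x hx hxr i hi => ?_⟩
    by_cases hq : x ∈ q.s
    · exact h2.2.2 x hq hxr i hi
    · exact h1.2.2 x hx hq i (h2.2.1 hi)
  le_antisymm p q h1 h2 :=
    MPos.ext (Finset.Subset.antisymm h2.1 h1.1) (Finset.Subset.antisymm h2.2.1 h1.2.1)

lemma MPos.le_iff {ι : Type} {A : ι → Set ℕ} {p q : MPos A} :
    p ≤ q ↔ q.s ⊆ p.s ∧ q.F ⊆ p.F ∧ ∀ x ∈ p.s, x ∉ q.s → ∀ i ∈ q.F, x ∈ A i := Iff.rfl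

/-- Martin's axiom gives pseudo-intersections of families of size less than the continuum. -/
theorem exists_pseudo (hMA : MartinAxiom) {ι : Type} (hι : #ι < 𝔠) (A : ι → Set ℕ)
    (hA : ∀ s : Finset ι, (⋂ i ∈ s, A i).Infinite) :
    ∃ B : Set ℕ, B.Infinite ∧ ∀ i, (B \ A i).Finite := by
  classical
  have : Nonempty (MPos A) := ⟨⟨∅, ∅⟩⟩
  obtain ⟨G, hGne, hGup, hGdir, hGD⟩ := hMA (MPos A) (by
    intro C hC
    have hinj : InjOn MPos.s C := by
      intro a ha b hb hab
      by_contra hne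
      refine hC a ha b hb hne ⟨⟨a.s, a.F ∪ b.F⟩, ?_, ?_⟩
      · exact ⟨subset_rfl, Finset.subset_union_left, fun x hx hx' => absurd hx hx'⟩
      · exact ⟨hab ▸ subset_rfl, Finset.subset_union_right, fun x hx hx' => absurd (hab ▸ hx) hx'⟩
    exact Set.countable_of_injective_of_countable_image hinj (Set.to_countable _))
    (range (fun i : ι => {p : MPos A | i ∈ p.F}) ∪ range (fun n : ℕ => {p : MPos A | ∃ m ∈ p.s, n ≤ m}))
    (by
      refine (mk_union_le _ _).trans_lt (add_lt_of_lt aleph0_le_continuum ?_ ?_)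
      · exact mk_range_le.trans_lt hι
      · exact (mk_range_le.trans (by simp)).trans_lt aleph0_lt_continuum)
    (by
      rintro _ (⟨i, rfl⟩ | ⟨n, rfl⟩) p
      · exact ⟨⟨p.s, insert i p.F⟩, by simp,
          ⟨subset_rfl, Finset.subset_insert _ _, fun x hx hx' => absurd hx hx'⟩⟩
      · obtain ⟨m, hm, hnm⟩ := (hA p.F).exists_gt n
        refine ⟨⟨insert m p.s, p.F⟩, ⟨m, by simp, hnm.le⟩,
          ⟨Finset.subset_insert _ _, subset_rfl, fun x hx hx' i hi => ?_⟩⟩
        rcases Finset.mem_insert.1 hx with rfl | h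
        · exact mem_iInter₂.1 hm i hi
        · exact absurd h hx')
  refine ⟨⋃ p ∈ G, (p.s : Set ℕ), ?_, ?_⟩
  · refine Set.infinite_of_not_bddAbove ?_
    rintro ⟨n, hn⟩
    obtain ⟨p, hpG, m, hm, hnm⟩ := hGD _ (Or.inr ⟨n + 1, rfl⟩)
    have := hn (mem_iUnion₂.2 ⟨p, hpG, hm⟩)
    omega
  · intro i
    obtain ⟨p, hpG, hp⟩ := hGD _ (Or.inl ⟨i, rfl⟩)
    refine (p.s.finite_toSet).subset ?_
    rintro x ⟨hx, hxA⟩
    obtain ⟨q, hqG, hxq⟩ := mem_iUnion₂.1 hx
    obtain ⟨r, hrG, hrp, hrq⟩ := hGdir p hpG q hqG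
    by_contra hxp
    exact hxA (hrp.2.2 x (hrq.1 hxq) hxp i hp)

/-- Martin's axiom: fewer than continuum many functions are dominated by one. -/
theorem exists_dominating (hMA : MartinAxiom) {ι : Type} (hι : #ι < 𝔠) (f : ι → ℕ → ℕ) :
    ∃ g : ℕ → ℕ, ∀ i, ∀ᶠ n in atTop, f i n ≤ g n := by
  classical
  -- families of subsets of ℕ, via pairing
  let A : ι ⊕ ℕ → Set ℕ := fun c => match c with
    | Sum.inl i => {x | ∀ j ≤ (Nat.unpair x).1, f i j ≤ (Nat.unpair x).2}
    | Sum.inr k => {x | k ≤ (Nat.unpair x).1}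
  have hcard : #(ι ⊕ ℕ) < 𝔠 := by
    rw [mk_sum, lift_id, lift_id]
    exact add_lt_of_lt aleph0_le_continuum hι (by simpa using aleph0_lt_continuum)
  obtain ⟨B, hB, hBA⟩ := exists_pseudo hMA hcard A (by
    intro s
    -- the finite family
    let F : Finset ι := s.preimage Sum.inl Sum.inl_injective.injOn
    let K : Finset ℕ := s.preimage Sum.inr Sum.inr_injective.injOn
    let k : ℕ := K.sup id
    let b : ℕ → ℕ := fun n => ∑ i ∈ F, ∑ j ∈ Finset.range (n + 1), f i j
    have hb : ∀ n, ∀ i ∈ F, ∀ j ≤ n, f i j ≤ b n := by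
      intro n i hi j hj
      calc f i j ≤ ∑ j ∈ Finset.range (n + 1), f i j :=
            Finset.single_le_sum (f := fun j => f i j) (fun _ _ => Nat.zero_le _)
              (Finset.mem_range.2 (by omega))
        _ ≤ b n := Finset.single_le_sum (f := fun i => ∑ j ∈ Finset.range (n + 1), f i j)
              (fun _ _ => Nat.zero_le _) hi
    refine Set.infinite_of_injective_forall_mem (f := fun n : ℕ => Nat.pair (k + n) (b (k + n)))
      ?_ ?_
    · intro n m h
      have := (Nat.pair_eq_pair.1 h).1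
      omega
    · intro n
      refine mem_iInter₂.2 fun c hc => ?_
      rcases c with i | l
      · intro j hj
        rw [Nat.unpair_pair] at hj ⊢
        exact hb _ i (by simpa [F] using hc) j hj
      · change l ≤ (Nat.unpair (Nat.pair (k + n) (b (k + n)))).1
        rw [Nat.unpair_pair]
        have : l ≤ k := Finset.le_sup (f := id) (show l ∈ K by simpa [K] using hc)
        exact this.trans (Nat.le_add_right _ _))
  have h1 : ∀ k : ℕ, ∃ x ∈ B, k ≤ (Nat.unpair x).1 := by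
    intro k
    have h2 : (B ∩ A (Sum.inr k)).Infinite := by
      intro hf
      exact hB ((hf.union (hBA (Sum.inr k))).subset (by
        intro x hx
        by_cases h : x ∈ A (Sum.inr k)
        · exact Or.inl ⟨hx, h⟩
        · exact Or.inr ⟨hx, h⟩))
    obtain ⟨x, hx, hx'⟩ := h2.nonempty
    exact ⟨x, hx, hx'⟩
  choose x hxB hxk using h1
  refine ⟨fun k => (Nat.unpair (x k)).2, fun i => ?_⟩
  have hfin : {k | x k ∈ B \ A (Sum.inl i)}.Finite := by
    have h2 := hBA (Sum.inl i)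
    refine Set.Finite.subset (h2.biUnion (t := fun y => Iic (Nat.unpair y).1)
      fun y _ => Set.finite_Iic _) ?_
    intro k hk
    exact mem_iUnion₂.2 ⟨x k, hk, hxk k⟩
  rw [← Nat.cofinite_eq_atTop]
  refine mem_of_superset hfin.compl_mem_cofinite ?_
  intro k hk
  have hk' : x k ∈ A (Sum.inl i) := by
    by_contra h
    exact hk ⟨hxB k, h⟩
  exact hk' k (hxk k)

end Pool.Agent.Lib.MP_c5d73d_lc
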